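import Pool.Agent.TurMod.Dense2
import Pool.Agent.TurMod.Lower

/-!
# MP_7145a1_co: the conjectured Turán number is asymptotically right, uniformly in `l` and `n`
-/

namespace Pool.Agent.Results.MP_7145a1_co.Asymptotic

open Finset

/-- `G` has no cycle whose length leaves the remainder `l` on division by `k` -/
def CycleFree (k l n : ℕ) (G : SimpleGraph (Fin n)) : Prop :=
  ∀ (v : Fin n) (c : G.Walk v v), c.IsCycle → c.length % k ≠ l

/-- the largest number of edges of a graph on `n` vertices without cycles of length `l` mod `k` -/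
noncomputable def ex (n k l : ℕ) : ℕ :=
  sSup {e : ℕ | ∃ G : SimpleGraph (Fin n), CycleFree k l n G ∧ e = G.edgeSet.ncard}

theorem result : ∀ ε : ℝ, 0 < ε → ∃ k₀ : ℕ, ∀ k l n : ℕ, k₀ ≤ k → Odd k → Odd l → 3 ≤ l → l < k →
    k + l ≤ n → ∀ a : ℕ, a = (k + l - 2) / 2 →
      a * (n - a) ≤ ex n k l ∧ (ex n k l : ℝ) ≤ (1 + ε) * ((a * (n - a) : ℕ) : ℝ) := by
  classical
  intro ε hε
  obtain ⟨k₀, h⟩ := TurMod.asymptotic_full.{0} ε hε
  refine ⟨k₀, ?_⟩
  intro k l n hk hodd hl h3 hlk hn a ha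
  obtain ⟨k', hk'⟩ := hodd
  obtain ⟨l', hl'⟩ := hl
  have han : a ≤ n := by omega
  have h2a : 2 * a = k + l - 2 := by omega
  have key : ∀ G : SimpleGraph (Fin n), CycleFree k l n G →
      ((G.edgeSet.ncard : ℕ) : ℝ) ≤ (1 + ε) * ((a * (n - a) : ℕ) : ℝ) := by
    intro G hG
    have h1 := h k hk ⟨k', hk'⟩ l ⟨l', hl'⟩ h3 hlk (Fin n) G (by simpa using hn) hG
    have h4 : ((k : ℝ) + l - 2) / 2 = (a : ℝ) := by
      have : (2 * a : ℝ) = (k : ℝ) + l - 2 := by
        have h5 : 2 * a + 2 = k + l := by omega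
        have h6 : (2 * a + 2 : ℝ) = (k : ℝ) + l := by exact_mod_cast h5
        linarith
      linarith
    rw [h4, Fintype.card_fin] at h1
    have h7 : (G.edgeSet.ncard : ℕ) = G.edgeFinset.card := by
      rw [← SimpleGraph.coe_edgeFinset, Set.ncard_coe_finset]
    rw [h7]
    push_cast [Nat.cast_sub han]
    exact h1
  have hbdd : BddAbove {e : ℕ | ∃ G : SimpleGraph (Fin n), CycleFree k l n G ∧
      e = G.edgeSet.ncard} := by
    refine ⟨⌊(1 + ε) * ((a * (n - a) : ℕ) : ℝ)⌋₊, ?_⟩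
    rintro e ⟨G, hG, rfl⟩
    exact Nat.le_floor (key G hG)
  have hlow : a * (n - a) ∈ {e : ℕ | ∃ G : SimpleGraph (Fin n), CycleFree k l n G ∧
      e = G.edgeSet.ncard} := by
    refine ⟨TurMod.kab n a, ?_, ?_⟩
    · intro v c hc hck
      have h1 := TurMod.kab_length c hc
      obtain ⟨t, ht⟩ := TurMod.kab_even c
      have h2 : c.length < 2 * k := by omega
      have h3 : c.length = l ∨ c.length = l + k := by
        have := Nat.div_add_mod c.length k
        rw [hck] at this
        have h4 : c.length / k < 2 := Nat.div_lt_of_lt_mul (by omega)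
        interval_cases h5 : c.length / k <;> omega
      rcases h3 with h3 | h3 <;> omega
    · have h1 := TurMod.kab_vol (n := n) (a := a) han
      rw [TurMod.vol_univ_eq] at h1
      rw [← SimpleGraph.coe_edgeFinset, Set.ncard_coe_finset]
      omega
  refine ⟨le_csSup hbdd hlow, ?_⟩
  obtain ⟨G, hG, hGe⟩ := Nat.sSup_mem ⟨_, hlow⟩ hbdd
  have : ex n k l = G.edgeSet.ncard := hGe
  rw [this]
  exact key G hG

end Pool.Agent.Results.MP_7145a1_co.Asymptotic
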